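import Pool.Agent.H18.BKH.Fin

/-!
# Polynomial self-maps of affine space: topological degree and dynamical degrees
-/

set_option autoImplicit false

namespace Pool.Agent.H37.Old.DegreesNotAllEqual

open MvPolynomial

/-- Let `f` be a dominant polynomial self-map of affine `N`-space over `Q̄`, `N ≥ 2`, without a
non-constant invariant rational function. Suppose that one of the following holds.

(1) Every point `y` outside some hypersurface `c = 0` has at least `e` preimages under `f`, and
for some `n ≥ 1` the `n`-th iterate of `f` is given by polynomials `g i` of total degree at most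
`d`, where `d ^ (N - 2) < e ^ n` (that is, `e > λ_1(f) ^ (N - 2)`).

(2) `N = 3`, every point `y` outside some hypersurface `c = 0` has at most `e` preimages under `f`
(where `e ≥ 1`), and there is a real number `μ > e` such that for infinitely many `n` the `n`-th
iterate `g` of `f` has degree at least `μ ^ n` (that is, `e < λ_1(f)`), or the field of rational
functions has degree at least `μ ^ n` over the field generated by `l`, `l' ∘ g`, `l'' ∘ g` for
some linear forms `l`, `l'`, `l''` (that is, `e < λ_2(f)`).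

Then for every nonzero polynomial `b` there is a point whose forward orbit is contained in
`b ≠ 0` and Zariski dense. -/
theorem result (N : ℕ) (hN : 2 ≤ N) (f : Fin N → MvPolynomial (Fin N) (AlgebraicClosure ℚ))
    (b : MvPolynomial (Fin N) (AlgebraicClosure ℚ))
    (hdom : ∀ q : MvPolynomial (Fin N) (AlgebraicClosure ℚ), aeval f q = 0 → q = 0)
    (hinv : ¬ ∃ p q : MvPolynomial (Fin N) (AlgebraicClosure ℚ),
      q ≠ 0 ∧
      (∀ s : AlgebraicClosure ℚ, p ≠ MvPolynomial.C s * q) ∧
      MvPolynomial.aeval f p * q = MvPolynomial.aeval f q * p)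
    (hdeg : (∃ (g : Fin N → MvPolynomial (Fin N) (AlgebraicClosure ℚ))
        (c : MvPolynomial (Fin N) (AlgebraicClosure ℚ)) (d e n : ℕ), 1 ≤ n ∧ c ≠ 0 ∧
        (∀ y : Fin N → AlgebraicClosure ℚ, eval y c ≠ 0 →
          ∃ S : Finset (Fin N → AlgebraicClosure ℚ), S.card = e ∧
            ∀ x ∈ S, (fun i => eval x (f i)) = y) ∧
        (∀ (y : Fin N → AlgebraicClosure ℚ) (i : Fin N),
          (fun (z : Fin N → AlgebraicClosure ℚ) (j : Fin N) => eval z (f j))^[n] y i =
            eval y (g i)) ∧
        (∀ i, (g i).totalDegree ≤ d) ∧ d ^ (N - 2) < e ^ n) ∨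
      (N = 3 ∧ ∃ (c : MvPolynomial (Fin N) (AlgebraicClosure ℚ)) (e : ℕ) (μ : ℝ), 1 ≤ e ∧
        c ≠ 0 ∧
        (∀ y : Fin N → AlgebraicClosure ℚ, eval y c ≠ 0 →
          ∀ S : Finset (Fin N → AlgebraicClosure ℚ),
            (∀ x ∈ S, (fun i => eval x (f i)) = y) → S.card ≤ e) ∧
        (e : ℝ) < μ ∧
        ∀ M : ℕ, ∃ n : ℕ, M ≤ n ∧
          ∃ g : Fin N → MvPolynomial (Fin N) (AlgebraicClosure ℚ),
            (∀ (y : Fin N → AlgebraicClosure ℚ) (j : Fin N),
              (fun (z : Fin N → AlgebraicClosure ℚ) (l : Fin N) => eval z (f l))^[n] y j =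
                eval y (g j)) ∧
            ((∃ i : Fin N, μ ^ n ≤ ((g i).totalDegree : ℝ)) ∨
              ∃ s s' s'' : Fin N → AlgebraicClosure ℚ,
                μ ^ n ≤ (Module.finrank (IntermediateField.adjoin (AlgebraicClosure ℚ)
                  {algebraMap (MvPolynomial (Fin N) (AlgebraicClosure ℚ))
                      (FractionRing (MvPolynomial (Fin N) (AlgebraicClosure ℚ)))
                      (∑ i, MvPolynomial.C (s i) * MvPolynomial.X i),
                    algebraMap (MvPolynomial (Fin N) (AlgebraicClosure ℚ))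
                      (FractionRing (MvPolynomial (Fin N) (AlgebraicClosure ℚ)))
                      (∑ i, MvPolynomial.C (s' i) * g i),
                    algebraMap (MvPolynomial (Fin N) (AlgebraicClosure ℚ))
                      (FractionRing (MvPolynomial (Fin N) (AlgebraicClosure ℚ)))
                      (∑ i, MvPolynomial.C (s'' i) * g i)})
                  (FractionRing (MvPolynomial (Fin N) (AlgebraicClosure ℚ))) : ℝ))))
    (hb : b ≠ 0) :
    ∃ P : Fin N → AlgebraicClosure ℚ,
      (∀ m : ℕ, eval ((fun (z : Fin N → AlgebraicClosure ℚ) (j : Fin N) =>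
        eval z (f j))^[m] P) b ≠ 0) ∧
      ∀ h : MvPolynomial (Fin N) (AlgebraicClosure ℚ),
        (∀ m : ℕ, eval ((fun (z : Fin N → AlgebraicClosure ℚ) (j : Fin N) =>
          eval z (f j))^[m] P) h = 0) →
        h = 0 := by
  have hit : ∀ (n : ℕ) (g : Fin N → MvPolynomial (Fin N) (AlgebraicClosure ℚ)),
      (∀ (y : Fin N → AlgebraicClosure ℚ) (i : Fin N),
        (fun (z : Fin N → AlgebraicClosure ℚ) (j : Fin N) => eval z (f j))^[n] y i =
          eval y (g i)) → Pool.Agent.H18.HIT.it f n = g := by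
    intro n g hg
    funext i
    apply MvPolynomial.funext
    intro y
    rw [← hg y i]
    exact congrFun (Pool.Agent.H18.HIT.pmap_it f n y) i
  rcases hdeg with ⟨g, c, d, e, n, hn, hc, he, hg, hd, hdeg⟩ | ⟨rfl, c, e, μ, he, hc, hpre, hμ,
    hgrow⟩
  · have hdeg' : Pool.Agent.H18.HIT.deg (Pool.Agent.H18.HIT.it f n) ^ (N - 2) < e ^ n := by
      rw [hit n g hg]
      exact lt_of_le_of_lt (Nat.pow_le_pow_left (Pool.Agent.H18.HIT.deg_le hd) _) hdeg
    exact Pool.Agent.H18.HIT.thmB Pool.Agent.H18.HIT.All.b Pool.Agent.H18.HIT.All.cnt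
      Pool.Agent.H18.HIT.All.nit N f b e n hN hn ⟨c, hc, he⟩ hdeg' hinv hb
  · have hinj : Function.Injective (aeval f : MvPolynomial (Fin 3) (AlgebraicClosure ℚ) →ₐ[
        AlgebraicClosure ℚ] MvPolynomial (Fin 3) (AlgebraicClosure ℚ)) := by
      rw [injective_iff_map_eq_zero]
      exact hdom
    by_cases h1 : ∀ M : ℕ, ∃ n ≥ M, ∃ i, μ ^ n ≤ ((Pool.Agent.H18.HIT.it f n i).totalDegree : ℝ)
    · exact Pool.Agent.H8.TD.n3aff f b hinj hinv e he ⟨c, hc, hpre⟩ μ hμ h1 hb
    · push Not at h1
      obtain ⟨M₀, hM₀⟩ := h1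
      refine Pool.Agent.H18.BKH.n3affB f b hinj hinv e he ⟨c, hc, hpre⟩ μ hμ (fun M => ?_) hb
      obtain ⟨n, hn, g, hg, hor⟩ := hgrow (max M M₀)
      refine ⟨n, (le_max_left _ _).trans hn, ?_⟩
      rcases hor with ⟨i, hi⟩ | ⟨s, s', s'', hs⟩
      · exfalso
        have h2 := hM₀ n ((le_max_right _ _).trans hn) i
        rw [hit n g hg] at h2
        exact absurd hi (not_le.2 h2)
      · refine ⟨s, s', s'', ?_⟩
        rw [hit n g hg]
        have hl : ∀ (t : Fin 3 → AlgebraicClosure ℚ)
            (u : Fin 3 → MvPolynomial (Fin 3) (AlgebraicClosure ℚ)),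
            algebraMap (MvPolynomial (Fin 3) (AlgebraicClosure ℚ))
              (FractionRing (MvPolynomial (Fin 3) (AlgebraicClosure ℚ)))
              (∑ i, MvPolynomial.C (t i) * u i) =
            Pool.Agent.H8.TD.lc t (fun i => algebraMap (MvPolynomial (Fin 3)
              (AlgebraicClosure ℚ)) (FractionRing (MvPolynomial (Fin 3) (AlgebraicClosure ℚ)))
              (u i)) := by
          intro t u
          rw [Pool.Agent.H8.TD.lc, map_sum]
          refine Finset.sum_congr rfl (fun i _ => ?_)
          rw [map_mul, Algebra.smul_def]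
          rfl
        rw [hl, hl, hl] at hs
        exact hs

end Pool.Agent.H37.Old.DegreesNotAllEqual
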